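import Pool.Agent.helper23.F2.Spec

/-!
# MP_26dbae_co (S07735), row f2:WK3: the number of pairs of walks with the same ends
-/

set_option autoImplicit false

open scoped BigOperators

namespace Pool.Agent.F2

open Pool.Agent.helper23.TH

open Classical in
theorem WK3_fib (V : Type) [Fintype V] (A : V → V → Prop) (t : ℕ) (a b : V) :
    ((PP A t).filter (fun q => (q.1 0, q.1 (Fin.last t)) = (a, b))) =
      ((Finset.univ : Finset (Fin (t + 1) → V)).filter
        (fun P => Wk A t P ∧ P 0 = a ∧ P (Fin.last t) = b)) ×ˢ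
      ((Finset.univ : Finset (Fin (t + 1) → V)).filter
        (fun P => Wk A t P ∧ P 0 = a ∧ P (Fin.last t) = b)) := by
  ext ⟨P, Q⟩
  simp only [PP, Finset.mem_filter, Finset.mem_univ, true_and, Finset.mem_product, Prod.mk.injEq]
  constructor
  · rintro ⟨⟨h1, h2, h3, h4⟩, h5, h6⟩
    exact ⟨⟨h1, h5, h6⟩, h2, h3.symm.trans h5, h4.symm.trans h6⟩
  · rintro ⟨⟨h1, h5, h6⟩, h2, h7, h8⟩
    exact ⟨⟨h1, h2, h5.trans h7.symm, h6.trans h8.symm⟩, h5, h6⟩

theorem WK3 (hWC : Pool.Agent.helper23.TH.WC_stmt) : WK3_stmt := by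
  classical
  intro V _ A t
  have h1 : (PP A t).card = ∑ p : V × V,
      ((PP A t).filter (fun q => (q.1 0, q.1 (Fin.last t)) = p)).card :=
    Finset.card_eq_sum_card_fiberwise (fun _ _ => Finset.mem_univ _)
  rw [h1, Nat.cast_sum, Fintype.sum_prod_type]
  unfold hh
  refine Finset.sum_congr rfl fun a _ => Finset.sum_congr rfl fun b _ => ?_
  rw [WK3_fib V A t a b, Finset.card_product, Nat.cast_mul, ← sq, ← hWC V A t a b]

end Pool.Agent.F2
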